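import Mathlib
import Pool.Agent.H28.L2Ops

set_option autoImplicit false

open Filter Topology MeasureTheory Real
open scoped NNReal ENNReal

namespace Pool.Agent.Results.MP_cf29c0_an.NotDissipative

/-- class 𝒫𝒟 -/
def IsPD (γ : ℝ≥0 → ℝ≥0) : Prop := Continuous γ ∧ γ 0 = 0 ∧ ∀ r, 0 < r → 0 < γ r

/-- class 𝒦 -/
def IsK (γ : ℝ≥0 → ℝ≥0) : Prop := IsPD γ ∧ StrictMono γ

/-- class 𝒦∞ -/
def IsKinf (γ : ℝ≥0 → ℝ≥0) : Prop := IsK γ ∧ ¬ BddAbove (Set.range γ)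

/-- forward complete control system with states `X` and a normed space `𝒰` of inputs, viewed
as functions `ℝ₊ → U` through the injective linear map `ev` -/
structure Sys (X U 𝒰 : Type) [NormedAddCommGroup X] [NormedAddCommGroup U] [NormedSpace ℝ U]
    [NormedAddCommGroup 𝒰] [NormedSpace ℝ 𝒰] where
  ev : 𝒰 →ₗ[ℝ] (ℝ≥0 → U)
  inj : Function.Injective ev
  shift : ∀ (u : 𝒰) (τ : ℝ≥0), ∃ v : 𝒰, (∀ s, ev v s = ev u (s + τ)) ∧ ‖v‖ ≤ ‖u‖
  concat : ∀ (u v : 𝒰) (t : ℝ≥0), 0 < t →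
    (∃ w : 𝒰, ∀ s, ev w s = if s ≤ t then ev u s else ev v (s - t)) ∧
    (∃ w : 𝒰, ∀ s, ev w s = if s < t then ev u s else ev v (s - t))
  φ : ℝ≥0 → X → 𝒰 → X
  ident : ∀ x u, φ 0 x u = x
  causal : ∀ t x u v, (∀ s ≤ t, ev u s = ev v s) → φ t x u = φ t x v
  cont : ∀ x u, Continuous (fun t => φ t x u)
  cocycle : ∀ t h x u v, (∀ s, ev v s = ev u (t + s)) → φ h (φ t x u) v = φ (t + h) x u

section
variable {X U 𝒰 : Type} [NormedAddCommGroup X] [NormedAddCommGroup U] [NormedSpace ℝ U]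
    [NormedAddCommGroup 𝒰] [NormedSpace ℝ 𝒰]

/-- upper right Dini derivative of `V` along the system -/
noncomputable def dini (S : Sys X U 𝒰) (V : X → ℝ≥0) (x : X) (u : 𝒰) : EReal :=
  limsup (fun t : ℝ≥0 => ((((V (S.φ t x u) : ℝ) - V x) / t : ℝ) : EReal)) (𝓝[>] 0)

/-- ISS Lyapunov function in dissipative form -/
def Diss (S : Sys X U 𝒰) (V : X → ℝ≥0) : Prop :=
  Continuous V ∧ ∃ ψ₁ ψ₂ α σ : ℝ≥0 → ℝ≥0, IsKinf ψ₁ ∧ IsKinf ψ₂ ∧ IsKinf α ∧ IsK σ ∧
    (∀ x, ψ₁ ‖x‖₊ ≤ V x ∧ V x ≤ ψ₂ ‖x‖₊) ∧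
    ∀ x u, dini S V x u ≤ ((-(α ‖x‖₊ : ℝ) + (σ ‖u‖₊ : ℝ) : ℝ) : EReal)

/-- ISS Lyapunov function in implication form -/
def Impl (S : Sys X U 𝒰) (V : X → ℝ≥0) : Prop :=
  Continuous V ∧ ∃ ψ₁ ψ₂ χ α : ℝ≥0 → ℝ≥0, IsKinf ψ₁ ∧ IsKinf ψ₂ ∧ IsKinf χ ∧ IsPD α ∧
    (∀ x, ψ₁ ‖x‖₊ ≤ V x ∧ V x ≤ ψ₂ ‖x‖₊) ∧
    ∀ x u, χ ‖u‖₊ ≤ ‖x‖₊ → dini S V x u ≤ ((-(α ‖x‖₊ : ℝ) : ℝ) : EReal)
end

open Pool.Agent.H28.L2Ops

def UU : Submodule ℝ (lp (fun _ : ℝ≥0 => ℝ) ∞) where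
  carrier := {u | Measurable (u : ℝ≥0 → ℝ)}
  add_mem' := fun {a b} ha hb => by
    simp only [Set.mem_setOf_eq, lp.coeFn_add] at *
    exact ha.add hb
  zero_mem' := by simp only [Set.mem_setOf_eq, lp.coeFn_zero]; exact measurable_const
  smul_mem' := fun c a ha => by
    simp only [Set.mem_setOf_eq, lp.coeFn_smul] at *
    exact ha.const_smul c

def evU : UU →ₗ[ℝ] (ℝ≥0 → ℝ) where
  toFun u := u.1
  map_add' _ _ := rfl
  map_smul' _ _ := rfl

lemma ev_le (u : UU) (s : ℝ≥0) : |evU u s| ≤ ‖u‖ := lp.norm_apply_le_norm (by simp) u.1 s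

lemma mkU (f : ℝ≥0 → ℝ) (hf : Measurable f) (C : ℝ) (hC : ∀ s, |f s| ≤ C) :
    ∃ w : UU, evU w = f ∧ ‖w‖ ≤ C :=
  ⟨⟨⟨f, memℓp_infty ⟨C, by rintro _ ⟨s, rfl⟩; exact hC s⟩⟩, hf⟩, rfl,
    lp.norm_le_of_forall_le ((abs_nonneg _).trans (hC 0)) hC⟩

lemma meas (u : UU) : Measurable (evU u) := u.2

lemma integ (l : ℝ) (u : UU) (a b : ℝ) :
    IntervalIntegrable (fun s : ℝ => exp (l * s) * evU u s.toNNReal) volume a b := by
  refine IntervalIntegrable.continuousOn_mul ?_ (by fun_prop)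
  refine (intervalIntegrable_const (c := ‖u‖)).mono_fun' 
    ((meas u).comp measurable_real_toNNReal).aestronglyMeasurable ?_
  exact Eventually.of_forall fun s => ev_le u _

noncomputable def J (l : ℝ) (u : UU) (t : ℝ) : ℝ := ∫ s in (0 : ℝ)..t, exp (l * s) * evU u s.toNNReal

lemma intexp (l t : ℝ) (hl : l ≠ 0) : ∫ s in (0 : ℝ)..t, exp (l * s) = (exp (l * t) - 1) / l := by
  rw [intervalIntegral.integral_comp_mul_left (fun x => exp x) hl]
  simp [div_eq_inv_mul]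

lemma J_le (l : ℝ) (hl : 0 < l) (u : UU) (t : ℝ) (ht : 0 ≤ t) :
    |J l u t| ≤ (exp (l * t) - 1) / l * ‖u‖ := by
  rw [← intexp l t hl.ne', ← intervalIntegral.integral_mul_const, ← Real.norm_eq_abs, J]
  refine intervalIntegral.norm_integral_le_of_norm_le ht (Eventually.of_forall fun s _ => ?_)
    (Continuous.intervalIntegrable (μ := volume) (u := fun s => exp (l * s) * ‖u‖)
      (by fun_prop) _ _)
  rw [norm_mul, Real.norm_of_nonneg (exp_pos _).le]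
  exact mul_le_mul_of_nonneg_left (ev_le u _) (exp_pos _).le

noncomputable def co (l : ℝ) (t : ℝ≥0) (a : ℝ) (u : UU) : ℝ := exp (-(l * t)) * (a + J l u t)

lemma co_le (l : ℝ) (hl : 0 < l) (t : ℝ≥0) (a : ℝ) (u : UU) :
    |co l t a u| ≤ exp (-(l * t)) * |a| + (1 - exp (-(l * t))) * (‖u‖ / l) := by
  have h1 := J_le l hl u t t.2
  have h2 : exp (-(l * t)) * exp (l * t) = 1 := by rw [← exp_add]; simp
  rw [co, abs_mul, abs_of_pos (exp_pos _)]
  have h3 := abs_add_le a (J l u t)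
  have h4 := exp_pos (-(l * t))
  calc _ ≤ exp (-(l * t)) * (|a| + (exp (l * t) - 1) / l * ‖u‖) := by gcongr; linarith
    _ = _ := by linear_combination (‖u‖ / l) * h2

lemma co_sq (l : ℝ) (hl : 1 ≤ l) (t : ℝ≥0) (a : ℝ) (u : UU) :
    co l t a u ^ 2 ≤ exp (-(t : ℝ)) * a ^ 2 + min 1 (t : ℝ) * ‖u‖ ^ 2 * l⁻¹ := by
  have h1 := co_le l (by linarith) t a u
  set θ := exp (-(l * t)) with hθ
  have t0 : (0 : ℝ) ≤ t := t.2
  have h2 : 0 < θ := exp_pos _
  have h3 : θ ≤ exp (-(t : ℝ)) := exp_le_exp.2 (by nlinarith)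
  have h3' : θ ≤ 1 := exp_le_one_iff.2 (by nlinarith)
  have h4 : 1 - θ ≤ l * t := by have := add_one_le_exp (-(l * t)); linarith
  have h5 : co l t a u ^ 2 ≤ (θ * |a| + (1 - θ) * (‖u‖ / l)) ^ 2 := by
    rw [← sq_abs]; exact pow_le_pow_left₀ (abs_nonneg _) h1 2
  have h6 : (θ * |a| + (1 - θ) * (‖u‖ / l)) ^ 2 ≤ θ * a ^ 2 + (1 - θ) * (‖u‖ / l) ^ 2 := by
    rw [← sq_abs a]
    nlinarith [mul_nonneg (mul_nonneg h2.le (sub_nonneg.2 h3')) (sq_nonneg (|a| - ‖u‖ / l))]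
  have h7 : (1 - θ) * (‖u‖ / l) ^ 2 ≤ min 1 (t : ℝ) * ‖u‖ ^ 2 * l⁻¹ := by
    have : 1 - θ ≤ min 1 (t : ℝ) * l := by
      rcases min_choice (1 : ℝ) t with h | h <;> rw [h] <;> linarith
    calc _ ≤ (min 1 (t : ℝ) * l) * (‖u‖ / l) ^ 2 := by gcongr
      _ = _ := by field_simp
  nlinarith [sq_nonneg a]

lemma lam_ge (k : ℕ) : (1 : ℝ) ≤ 2 ^ k := one_le_pow₀ one_le_two

lemma geo : HasSum (fun k : ℕ => ((2 : ℝ) ^ k)⁻¹) 2 := by
  simpa using hasSum_geometric_two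

lemma dom (x : L2 ℝ) (c d : ℝ) :
    HasSum (fun k => c * x k ^ 2 + d * ((2 : ℝ) ^ k)⁻¹) (c * ‖x‖ ^ 2 + d * 2) := by
  have := (summ x).hasSum
  rw [← normsq] at this
  simp only [Real.norm_eq_abs, sq_abs] at this
  exact (this.mul_left c).add (geo.mul_left d)

noncomputable def phi (t : ℝ≥0) (x : L2 ℝ) (u : UU) : L2 ℝ :=
  ⟨fun k => co (2 ^ k) t (x k) u, (mem_iff _).2 (Summable.of_nonneg_of_le (fun _ => by positivity)
    (fun k => by simpa using co_sq _ (lam_ge k) t (x k) u) (dom x _ _).summable)⟩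

lemma phi_apply (t : ℝ≥0) (x : L2 ℝ) (u : UU) (k : ℕ) : phi t x u k = co (2 ^ k) t (x k) u := rfl

lemma phi_sq (t : ℝ≥0) (x : L2 ℝ) (u : UU) :
    ‖phi t x u‖ ^ 2 ≤ exp (-(t : ℝ)) * ‖x‖ ^ 2 + t * ‖u‖ ^ 2 * 2 := by
  rw [normsq]
  refine (hasSum_le (fun k => ?_) (summ _).hasSum (dom x (exp (-(t : ℝ))) (t * ‖u‖ ^ 2)))
  have := co_sq _ (lam_ge k) t (x k) u
  have h2 : min 1 (t : ℝ) * ‖u‖ ^ 2 * ((2 : ℝ) ^ k)⁻¹ ≤ t * ‖u‖ ^ 2 * ((2 : ℝ) ^ k)⁻¹ := by
    gcongr; exact min_le_right _ _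
  rw [phi_apply, Real.norm_eq_abs, sq_abs]
  linarith

lemma co_cont (l a : ℝ) (u : UU) : Continuous (fun t : ℝ≥0 => co l t a u) := by
  have : Continuous (J l u) := intervalIntegral.continuous_primitive (integ l u) 0
  unfold co
  fun_prop

lemma phi_cont (x : L2 ℝ) (u : UU) : Continuous (fun t => phi t x u) := by
  rw [continuous_iff_continuousAt]
  intro t0
  rw [ContinuousAt, tendsto_iff_norm_sub_tendsto_zero]
  have b : ∀ t k, co (2 ^ k) t (x k) u ^ 2 ≤ x k ^ 2 + ‖u‖ ^ 2 * ((2 : ℝ) ^ k)⁻¹ := by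
    intro t k
    have h1 := co_sq _ (lam_ge k) t (x k) u
    have h2 : min 1 (t : ℝ) * ‖u‖ ^ 2 * ((2 : ℝ) ^ k)⁻¹ ≤ 1 * ‖u‖ ^ 2 * ((2 : ℝ) ^ k)⁻¹ := by
      gcongr; exact min_le_left _ _
    have h3 : exp (-(t : ℝ)) ≤ 1 := exp_le_one_iff.2 (by simp)
    nlinarith [sq_nonneg (x k)]
  have c : Continuous (fun t => ∑' k, (co (2 ^ k) t (x k) u - co (2 ^ k) t0 (x k) u) ^ 2) := by
    refine continuous_tsum (fun k => ((co_cont _ _ _).sub continuous_const).pow 2)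
      (dom x 4 (4 * ‖u‖ ^ 2)).summable (fun k t => ?_)
    rw [Real.norm_of_nonneg (sq_nonneg _)]
    nlinarith [b t k, b t0 k, sq_nonneg (co (2 ^ k) t (x k) u + co (2 ^ k) t0 (x k) u)]
  have d := (c.tendsto t0).sqrt
  simp only [sub_self, ne_eq, OfNat.ofNat_ne_zero, not_false_eq_true, zero_pow, tsum_zero,
    sqrt_zero] at d
  refine d.congr fun t => ?_
  rw [← sqrt_sq (norm_nonneg (phi t x u - phi t0 x u)), normsq]
  simp [phi_apply]

noncomputable def sys : Sys (L2 ℝ) ℝ UU where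
  ev := evU
  inj := fun u v h => Subtype.ext (lp.ext h)
  shift u τ := by
    obtain ⟨w, h1, h2⟩ := mkU (fun s => evU u (s + τ)) ((meas u).comp (by fun_prop)) ‖u‖
      (fun s => ev_le u _)
    exact ⟨w, fun s => by rw [h1], h2⟩
  concat u v t _ := by
    have m2 : Measurable (fun s => evU v (s - t)) := (meas v).comp (by fun_prop)
    have hb : ∀ (p : Prop) [Decidable p] (s : ℝ≥0),
        |if p then evU u s else evU v (s - t)| ≤ ‖u‖ + ‖v‖ := by
      intro p _ s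
      have := ev_le u s
      have := ev_le v (s - t)
      split_ifs <;> linarith [norm_nonneg u, norm_nonneg v]
    constructor
    · obtain ⟨w, h1, -⟩ := mkU (fun s => if s ≤ t then evU u s else evU v (s - t))
        (Measurable.ite measurableSet_Iic (meas u) m2) _ (fun s => hb _ s)
      exact ⟨w, fun s => by rw [h1]⟩
    · obtain ⟨w, h1, -⟩ := mkU (fun s => if s < t then evU u s else evU v (s - t))
        (Measurable.ite measurableSet_Iio (meas u) m2) _ (fun s => hb _ s)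
      exact ⟨w, fun s => by rw [h1]⟩
  φ := phi
  ident x u := by ext k; simp [phi_apply, co, J]
  causal t x u v h := by
    ext k
    simp only [phi_apply, co, J]
    congr 2
    refine intervalIntegral.integral_congr fun s hs => ?_
    rw [Set.uIcc_of_le t.coe_nonneg] at hs
    rw [h _ (Real.toNNReal_le_iff_le_coe.2 hs.2)]
  cont := phi_cont
  cocycle t h x u v hv := by
    ext k
    simp only [phi_apply, co]
    generalize (2 : ℝ) ^ k = l
    have e1 : J l u ((t + h : ℝ≥0) : ℝ) = J l u t + exp (l * t) * J l v h := by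
      unfold J
      rw [← intervalIntegral.integral_add_adjacent_intervals (integ l u 0 t) (integ l u t _),
        ← intervalIntegral.integral_const_mul]
      congr 1
      have := intervalIntegral.integral_comp_add_left
        (fun s : ℝ => exp (l * s) * evU u s.toNNReal) (a := 0) (b := h) (t : ℝ)
      rw [add_zero] at this
      rw [NNReal.coe_add, ← this]
      refine intervalIntegral.integral_congr fun s hs => ?_
      rw [Set.uIcc_of_le h.coe_nonneg] at hs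
      rw [hv, Real.toNNReal_add t.coe_nonneg hs.1, Real.toNNReal_coe, mul_add, exp_add, mul_assoc]
    have e2 : exp (-(l * t)) * exp (l * t) = 1 := by rw [← exp_add]; simp
    rw [e1, NNReal.coe_add, mul_add l, neg_add, exp_add]
    linear_combination (-exp (-(l * h)) * J l v h) * e2

lemma decay (x : L2 ℝ) (u : UU) (h : 2 * ‖u‖ ≤ ‖x‖) :
    dini sys (fun x => ‖x‖₊) x u ≤ ((-(‖x‖ / 8) : ℝ) : EReal) := by
  refine limsup_le_of_le (by isBoundedDefault) ?_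
  filter_upwards [Ioo_mem_nhdsGT (show (0 : ℝ≥0) < 1 / 4 by norm_num)] with t ht
  have t0 : (0 : ℝ) < t := ht.1
  have t1 : (t : ℝ) < 1 / 4 := by exact_mod_cast ht.2
  rw [EReal.coe_le_coe_iff, div_le_iff₀ t0]
  have h1 := phi_sq t x u
  have h2 : exp (-(t : ℝ)) ≤ 1 - 3 / 4 * t := by
    have a := add_one_le_exp (t : ℝ)
    rw [exp_neg, inv_le_iff_one_le_mul₀ (exp_pos _)]
    nlinarith
  have h3 : ‖phi t x u‖ ≤ ‖x‖ * (1 - t / 8) := by
    refine le_of_sq_le_sq ?_ (by have := norm_nonneg x; nlinarith) |>.trans le_rfl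
    have a : 4 * ‖u‖ ^ 2 ≤ ‖x‖ ^ 2 := by nlinarith [norm_nonneg u]
    nlinarith [sq_nonneg ‖x‖, mul_nonneg (sq_nonneg ‖x‖) (sq_nonneg (t : ℝ))]
  simp only [coe_nnnorm]
  change ‖phi t x u‖ - ‖x‖ ≤ _
  linarith

lemma blow : ∃ u : UU, dini sys (fun x => ‖x‖₊) 0 u = ⊤ := by
  obtain ⟨u, hu, -⟩ := mkU (fun _ => 1) measurable_const 1 (by simp)
  refine ⟨u, ?_⟩
  rw [EReal.eq_top_iff_forall_lt]
  intro y
  obtain ⟨K, hK⟩ := exists_nat_gt (2 * |y|)
  refine lt_of_lt_of_le (b := ((K / 2 : ℝ) : EReal))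
    (EReal.coe_lt_coe_iff.2 (by linarith [le_abs_self y])) ?_
  refine le_limsup_of_frequently_le (Eventually.frequently ?_) (by isBoundedDefault)
  filter_upwards [Ioo_mem_nhdsGT (show (0 : ℝ≥0) < (2 ^ (K ^ 2))⁻¹ by positivity)] with t ht
  have t0 : (0 : ℝ) < t := ht.1
  have t1 : (t : ℝ) < (2 ^ (K ^ 2))⁻¹ := by exact_mod_cast ht.2
  rw [EReal.coe_le_coe_iff, le_div_iff₀ t0]
  have h1 : ∀ k ∈ Finset.range (K ^ 2), (t / 2 : ℝ) ^ 2 ≤ ‖phi t 0 u k‖ ^ 2 := by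
    intro k hk
    refine pow_le_pow_left₀ (by positivity) (le_trans ?_ (le_abs_self _)) 2
    have a : (2 : ℝ) ^ k ≤ 2 ^ (K ^ 2) := pow_le_pow_right₀ one_le_two (Finset.mem_range.1 hk).le
    have l0 := lam_ge k
    rw [phi_apply]
    generalize (2 : ℝ) ^ k = l at *
    have b : l * t ≤ 1 := by
      rw [lt_inv_comm₀ t0 (by positivity)] at t1
      rw [← le_div_iff₀ t0, one_div]; linarith
    simp only [co, J, hu, mul_one, intexp l t (by linarith), lp.coeFn_zero, Pi.zero_apply,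
      zero_add]
    have c := add_one_le_exp (l * t)
    have d := exp_pos (l * t)
    rw [exp_neg, ← div_eq_inv_mul, le_div_iff₀ d, le_div_iff₀ (by linarith)]
    have e : 0 < l * t := by positivity
    nlinarith
  have h2 := (Finset.sum_le_sum h1).trans
    ((summ (phi t 0 u)).sum_le_tsum _ (fun _ _ => by positivity))
  rw [← normsq] at h2
  simp only [Finset.sum_const, Finset.card_range, nsmul_eq_mul, Nat.cast_pow] at h2
  simp only [coe_nnnorm, norm_zero, sub_zero]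
  change _ ≤ ‖phi t 0 u‖
  refine le_of_sq_le_sq ?_ (norm_nonneg _)
  calc _ = (K : ℝ) ^ 2 * (t / 2) ^ 2 := by ring
    _ ≤ _ := h2

lemma lin (c : ℝ≥0) (hc : 0 < c) : IsKinf (fun r => c * r) := by
  refine ⟨⟨⟨by fun_prop, by simp, fun r hr => by positivity⟩, fun a b h => mul_lt_mul_of_pos_left h hc⟩, ?_⟩
  rintro ⟨b, hb⟩
  have := hb ⟨(b + 1) / c, rfl⟩
  simp only at this
  rw [mul_div_cancel₀ _ hc.ne'] at this
  simp at this

theorem result : ∃ (X 𝒰 : Type) (_ : NormedAddCommGroup X) (_ : InnerProductSpace ℝ X)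
    (_ : CompleteSpace X) (_ : NormedAddCommGroup 𝒰) (_ : NormedSpace ℝ 𝒰) (S : Sys X ℝ 𝒰),
    ¬ FiniteDimensional ℝ X ∧
    (∀ t, IsLinearMap ℝ (fun p : X × 𝒰 => S.φ t p.1 p.2)) ∧
    Impl S (fun x => ‖x‖₊) ∧ ¬ Diss S (fun x => ‖x‖₊) ∧
    (∀ x u, 2 * ‖u‖ ≤ ‖x‖ → dini S (fun x => ‖x‖₊) x u ≤ ((-(‖x‖ / 8) : ℝ) : EReal)) ∧
    ∃ u, dini S (fun x => ‖x‖₊) 0 u = ⊤ := by
  refine ⟨L2 ℝ, UU, inferInstance, inferInstance, inferInstance, inferInstance, inferInstance, sys,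
    ?_, fun t => ⟨fun p q => ?_, fun c p => ?_⟩, ?_, ?_, decay, blow⟩
  · intro h
    have li : LinearIndependent ℝ (fun n : ℕ => (lp.single 2 n (1 : ℝ) : L2 ℝ)) := by
      refine Orthonormal.linearIndependent (𝕜 := ℝ) ?_
      rw [orthonormal_iff_ite]
      intro i j
      rw [lp.inner_single_left]
      by_cases hij : i = j <;> simp [hij, Pi.single_apply]
    exact Module.Finite.not_linearIndependent_of_infinite _ li
  · ext k
    change co _ t ((p.1 + q.1) k) (p.2 + q.2) = (phi t p.1 p.2 + phi t q.1 q.2) k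
    simp only [lp.coeFn_add, Pi.add_apply, phi_apply, co, J, map_add, mul_add]
    rw [intervalIntegral.integral_add (integ _ _ _ _) (integ _ _ _ _)]
    ring
  · ext k
    change co _ t ((c • p.1) k) (c • p.2) = (c • phi t p.1 p.2) k
    simp only [lp.coeFn_smul, Pi.smul_apply, phi_apply, co, J, map_smul, smul_eq_mul]
    rw [show (fun s : ℝ => exp (2 ^ k * s) * (c * evU p.2 s.toNNReal)) =
      fun s : ℝ => c * (exp (2 ^ k * s) * evU p.2 s.toNNReal) by ext; ring,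
      intervalIntegral.integral_const_mul]
    ring
  · refine ⟨by fun_prop, _, _, _, _, lin 1 one_pos, lin 1 one_pos, lin 2 two_pos,
      (lin (1 / 8) (by norm_num)).1.1, by simp, fun x u h => ?_⟩
    have := decay x u (by exact_mod_cast h)
    convert this using 3
    simp; ring
  · rintro ⟨-, ψ₁, ψ₂, α, σ, -, -, -, -, -, h⟩
    obtain ⟨u, hu⟩ := blow
    have := h 0 u
    rw [hu] at this
    exact absurd this (not_le.2 (EReal.coe_lt_top _))

end Pool.Agent.Results.MP_cf29c0_an.NotDissipative
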